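import Pool.Agent.E8helper4.FV.Stm3
import Pool.Agent.E8helper8.FV.K1

/-!
FV3-G2 (helper4's project on Schiffer domains): differentiation of `∮ (𝒟^k Q(σ, t))_m dX` in `σ`.
-/

set_option autoImplicit false

open Complex MeasureTheory Metric Set Filter Topology ComplexConjugate
open Pool.Agent.E8helper4.FV Pool.Agent.E8helper8.FV

namespace Pool.Agent.E8helper10.FV3

theorem mem_r {r : ℝ} (hr : 1 < r) (t : ℝ) : exp ((t : ℂ) * I) ∈ ball (0 : ℂ) r := by
  simp only [mem_ball, dist_zero_right, norm_exp_ofReal_mul_I]; exact hr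

theorem cont_circ {g : ℂ → ℂ} {r : ℝ} (hr : 1 < r) (hg : DifferentiableOn ℂ g (ball 0 r)) :
    Continuous fun t : ℝ => g (exp ((t : ℂ) * I)) := by
  have h : ContinuousOn g (ball 0 r) := hg.continuousOn
  rw [← continuousOn_univ]
  exact h.comp (by fun_prop) (fun t _ => mem_r hr t)

theorem xx_cont' {φ : ℂ → ℂ} {r : ℝ} (hr : 1 < r) (hφ : DifferentiableOn ℂ φ (ball 0 r)) :
    Continuous (xx φ) := cont_circ hr hφ

theorem xd_cont' {φ : ℂ → ℂ} {r : ℝ} (hr : 1 < r) (hφ : DifferentiableOn ℂ φ (ball 0 r)) :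
    Continuous (xd φ) := by
  have h := cont_circ hr (hφ.deriv isOpen_ball)
  unfold xd
  fun_prop

/-- differentiation under the integral sign -/
theorem parR {F F' : ℝ → ℝ → ℂ} (a b : ℝ) (hc : ∀ σ, Continuous (F σ))
    (hc' : Continuous (fun p : ℝ × ℝ => F' p.1 p.2))
    (hd : ∀ σ t, HasDerivAt (fun σ => F σ t) (F' σ t) σ) (σ : ℝ) :
    HasDerivAt (fun σ => ∫ t in a..b, F σ t) (∫ t in a..b, F' σ t) σ := by
  have hcomp : IsCompact (closedBall σ 1 ×ˢ uIcc a b) :=
    (isCompact_closedBall σ 1).prod isCompact_uIcc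
  obtain ⟨C, hC⟩ := hcomp.exists_bound_of_continuousOn hc'.continuousOn
  have hc'z : Continuous (F' σ) := hc'.comp (by fun_prop : Continuous fun t : ℝ => ((σ, t) : ℝ × ℝ))
  exact (intervalIntegral.hasDerivAt_integral_of_dominated_loc_of_deriv_le
    (μ := volume) (F := F) (F' := F') (x₀ := σ)
    (s := ball σ 1) (bound := fun _ => C) (ball_mem_nhds σ one_pos)
    (Eventually.of_forall fun B => (hc B).aestronglyMeasurable)
    ((hc σ).intervalIntegrable _ _) hc'z.aestronglyMeasurable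
    (Eventually.of_forall fun t ht B hB =>
      hC (B, t) ⟨ball_subset_closedBall hB, uIoc_subset_uIcc ht⟩)
    (continuous_const.intervalIntegrable _ _)
    (Eventually.of_forall fun t _ B _ => hd B t)).2

/-- the derivative of a kernel along a path -/
theorem kp_path (m : ℤ) {A Y A' Y' : ℝ → ℂ} (hA : ∀ σ, HasDerivAt A (A' σ) σ)
    (hY : ∀ σ, HasDerivAt Y (Y' σ) σ) (hA' : Continuous A') (hY' : Continuous Y') (σ : ℝ) :
    HasDerivAt (fun σ => kp m (A σ) (Y σ))
      (A' σ * kp (m - 1) (A σ) (Y σ) + Y' σ * kp (m + 1) (A σ) (Y σ)) σ := by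
  have hAc : Continuous A := continuous_iff_continuousAt.2 fun σ => (hA σ).continuousAt
  have hYc : Continuous Y := continuous_iff_continuousAt.2 fun σ => (hY σ).continuousAt
  have hg : ∀ m : ℤ, Continuous (fun p : ℝ × ℝ => gg m (A p.1) (Y p.1) p.2) := by
    intro m
    unfold gg
    fun_prop
  have hd : ∀ σ τ, HasDerivAt (fun σ => gg m (A σ) (Y σ) τ)
      (A' σ * gg (m - 1) (A σ) (Y σ) τ + Y' σ * gg (m + 1) (A σ) (Y σ) τ) σ := by
    intro σ τ
    have h1 := (((hA σ).const_mul (exp ((τ : ℂ) * I))).add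
      ((hY σ).const_mul (exp (-((τ : ℂ) * I))))).sub_const ((m : ℂ) * (τ : ℂ) * I)
    have h2 := h1.cexp
    refine HasDerivAt.congr_deriv (f := fun σ => gg m (A σ) (Y σ) τ) h2 ?_
    rw [← gg_mul, ← gg_mul']
    unfold gg
    simp only [Pi.add_apply]
    ring
  have h := parR (F := fun σ τ => gg m (A σ) (Y σ) τ)
    (F' := fun σ τ => A' σ * gg (m - 1) (A σ) (Y σ) τ + Y' σ * gg (m + 1) (A σ) (Y σ) τ)
    0 (2 * Real.pi) (fun σ => gg_cont_t m (A σ) (Y σ))
    (by
      have h1 := hg (m - 1)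
      have h2 := hg (m + 1)
      fun_prop) hd σ
  have h2 := h.const_mul (1 / (2 * Real.pi) : ℂ)
  refine HasDerivAt.congr_deriv (f := fun σ => kp m (A σ) (Y σ)) h2 ?_
  rw [intervalIntegral.integral_add, intervalIntegral.integral_const_mul,
    intervalIntegral.integral_const_mul, kp_eq, kp_eq]
  · ring
  · exact (continuous_const.mul (gg_cont_t _ _ _)).intervalIntegrable _ _
  · exact (continuous_const.mul (gg_cont_t _ _ _)).intervalIntegrable _ _

section

variable {φ : ℂ → ℂ} {r : ℝ}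

/-- the first argument -/
noncomputable def AA (φ : ℂ → ℂ) (σ t s : ℝ) : ℂ := xx φ t - (Real.exp (-σ) : ℂ) * xx φ s

/-- the second argument -/
noncomputable def YY (a : ℝ) (φ : ℂ → ℂ) (σ t s : ℝ) : ℂ :=
  -(a : ℂ) * (conj (xx φ t) - (Real.exp σ : ℂ) * conj (xx φ s))

theorem QQ_eq (a : ℝ) (φ : ℂ → ℂ) (σ t : ℝ) (m : ℤ) :
    QQ a φ σ t m = ∫ s in (0 : ℝ)..t, kp m (AA φ σ t s) (YY a φ σ t s) * xd φ s := rfl

theorem kc (h1 : K1) (hx : Continuous (xx φ)) (a : ℝ) (m : ℤ) :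
    Continuous fun p : (ℝ × ℝ) × ℝ => kp m (AA φ p.1.1 p.1.2 p.2) (YY a φ p.1.1 p.1.2 p.2) := by
  have hX : Continuous fun s : ℝ => conj (xx φ s) := Complex.continuous_conj.comp hx
  have hA : Continuous fun p : (ℝ × ℝ) × ℝ => AA φ p.1.1 p.1.2 p.2 := by
    unfold AA; fun_prop
  have hY : Continuous fun p : (ℝ × ℝ) × ℝ => YY a φ p.1.1 p.1.2 p.2 := by
    unfold YY; fun_prop
  exact Continuous.comp (g := fun q : ℂ × ℂ => kp m q.1 q.2)
    (f := fun p : (ℝ × ℝ) × ℝ => ((AA φ p.1.1 p.1.2 p.2, YY a φ p.1.1 p.1.2 p.2) : ℂ × ℂ))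
    (h1 m).1 (hA.prodMk hY)

theorem kc2 (h1 : K1) (hx : Continuous (xx φ)) (a : ℝ) (m : ℤ) (t : ℝ) :
    Continuous fun p : ℝ × ℝ => kp m (AA φ p.1 t p.2) (YY a φ p.1 t p.2) := by
  have hX : Continuous fun s : ℝ => conj (xx φ s) := Complex.continuous_conj.comp hx
  have hA : Continuous fun p : ℝ × ℝ => AA φ p.1 t p.2 := by
    unfold AA; fun_prop
  have hY : Continuous fun p : ℝ × ℝ => YY a φ p.1 t p.2 := by
    unfold YY; fun_prop
  exact Continuous.comp (g := fun q : ℂ × ℂ => kp m q.1 q.2)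
    (f := fun p : ℝ × ℝ => ((AA φ p.1 t p.2, YY a φ p.1 t p.2) : ℂ × ℂ))
    (h1 m).1 (hA.prodMk hY)

theorem kc3 (h1 : K1) (hx : Continuous (xx φ)) (a : ℝ) (m : ℤ) (σ t : ℝ) :
    Continuous fun s : ℝ => kp m (AA φ σ t s) (YY a φ σ t s) := by
  have hX : Continuous fun s : ℝ => conj (xx φ s) := Complex.continuous_conj.comp hx
  have hA : Continuous fun s : ℝ => AA φ σ t s := by
    unfold AA; fun_prop
  have hY : Continuous fun s : ℝ => YY a φ σ t s := by
    unfold YY; fun_prop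
  exact Continuous.comp (g := fun q : ℂ × ℂ => kp m q.1 q.2)
    (f := fun s : ℝ => ((AA φ σ t s, YY a φ σ t s) : ℂ × ℂ))
    (h1 m).1 (hA.prodMk hY)

theorem QQ_cont (h1 : K1) (hx : Continuous (xx φ)) (hxd : Continuous (xd φ)) (a : ℝ) (m : ℤ) :
    Continuous fun p : ℝ × ℝ => QQ a φ p.1 p.2 m := by
  have h := (kc h1 hx a m).mul (hxd.comp continuous_snd)
  exact intervalIntegral.continuous_parametric_intervalIntegral_of_continuous
    (f := fun (p : ℝ × ℝ) (s : ℝ) => kp m (AA φ p.1 p.2 s) (YY a φ p.1 p.2 s) * xd φ s) h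
    continuous_snd

theorem DD_cont (h1 : K1) (hx : Continuous (xx φ)) (hxd : Continuous (xd φ)) (a : ℝ) (k : ℕ) :
    ∀ m : ℤ, Continuous fun p : ℝ × ℝ => ((DD a φ p.2)^[k] (QQ a φ p.1 p.2)) m := by
  induction k with
  | zero => intro m; exact QQ_cont h1 hx hxd a m
  | succ k ih =>
    intro m
    simp only [Function.iterate_succ_apply']
    unfold DD at ih ⊢
    have hX : Continuous fun s : ℝ => conj (xx φ s) := Complex.continuous_conj.comp hx
    have i1 := ih (m - 1)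
    have i2 := ih (m + 1)
    have i3 := ih m
    fun_prop

theorem dk (h1 : K1) (hx : Continuous (xx φ)) (a : ℝ) (m : ℤ) (t s σ : ℝ) :
    HasDerivAt (fun σ => kp m (AA φ σ t s) (YY a φ σ t s))
      (DD a φ t (fun j => kp j (AA φ σ t s) (YY a φ σ t s)) m) σ := by
  have e1 : ∀ σ : ℝ, HasDerivAt (fun σ : ℝ => ((Real.exp σ : ℝ) : ℂ)) ((Real.exp σ : ℝ) : ℂ) σ :=
    fun σ => (Real.hasDerivAt_exp σ).ofReal_comp
  have e2 : ∀ σ : ℝ, HasDerivAt (fun σ : ℝ => ((Real.exp (-σ) : ℝ) : ℂ))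
      (-((Real.exp (-σ) : ℝ) : ℂ)) σ := by
    intro σ
    have := ((hasDerivAt_id σ).neg.exp).ofReal_comp
    refine HasDerivAt.congr_deriv (f := fun σ : ℝ => ((Real.exp (-σ) : ℝ) : ℂ)) this ?_
    simp
  have hA : ∀ σ, HasDerivAt (fun σ => AA φ σ t s) ((Real.exp (-σ) : ℂ) * xx φ s) σ := by
    intro σ
    have := ((e2 σ).mul_const (xx φ s)).const_sub (xx φ t)
    refine HasDerivAt.congr_deriv (f := fun σ => AA φ σ t s) this ?_
    ring
  have hY : ∀ σ, HasDerivAt (fun σ => YY a φ σ t s)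
      ((a : ℂ) * ((Real.exp σ : ℂ) * conj (xx φ s))) σ := by
    intro σ
    have := (((e1 σ).mul_const (conj (xx φ s))).const_sub (conj (xx φ t))).const_mul (-(a : ℂ))
    refine HasDerivAt.congr_deriv (f := fun σ => YY a φ σ t s) this ?_
    ring
  have h := kp_path m hA hY (by fun_prop) (by fun_prop) σ
  refine h.congr_deriv ?_
  have hrec := (h1 m).2.2.2.2.2.2.2.2 (AA φ σ t s) (YY a φ σ t s)
  have f1 : (Real.exp (-σ) : ℂ) * xx φ s = xx φ t - AA φ σ t s := by unfold AA; ring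
  have f2 : (a : ℂ) * ((Real.exp σ : ℂ) * conj (xx φ s)) =
      (a : ℂ) * conj (xx φ t) + YY a φ σ t s := by unfold YY; ring
  unfold DD
  rw [f1, f2, ← hrec]
  ring

theorem dQ (h1 : K1) (hx : Continuous (xx φ)) (hxd : Continuous (xd φ)) (a : ℝ) (m : ℤ)
    (t σ : ℝ) : HasDerivAt (fun σ => QQ a φ σ t m) (DD a φ t (QQ a φ σ t) m) σ := by
  have hc : ∀ m, Continuous fun p : ℝ × ℝ => kp m (AA φ p.1 t p.2) (YY a φ p.1 t p.2) :=
    fun m => kc2 h1 hx a m t
  have hcs : ∀ (m : ℤ) (σ : ℝ), Continuous fun s : ℝ => kp m (AA φ σ t s) (YY a φ σ t s) :=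
    fun m σ => kc3 h1 hx a m σ t
  have h := parR (F := fun σ s => kp m (AA φ σ t s) (YY a φ σ t s) * xd φ s)
    (F' := fun σ s => DD a φ t (fun j => kp j (AA φ σ t s) (YY a φ σ t s)) m * xd φ s) 0 t
    (fun σ => (hcs m σ).mul hxd)
    (by
      unfold DD
      have i1 := hc (m - 1)
      have i2 := hc (m + 1)
      have i3 := hc m
      fun_prop)
    (fun σ s => (dk h1 hx a m t s σ).mul_const _) σ
  refine HasDerivAt.congr_deriv (f := fun σ => QQ a φ σ t m) h ?_
  unfold DD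
  rw [QQ_eq, QQ_eq, QQ_eq, ← intervalIntegral.integral_const_mul,
    ← intervalIntegral.integral_const_mul, ← intervalIntegral.integral_const_mul,
    ← intervalIntegral.integral_add, ← intervalIntegral.integral_sub]
  · congr 1
    funext s
    ring
  · exact Continuous.intervalIntegrable (((continuous_const.mul ((hcs _ σ).mul hxd))).add
      (continuous_const.mul ((hcs _ σ).mul hxd))) _ _
  · exact Continuous.intervalIntegrable (continuous_const.mul ((hcs _ σ).mul hxd)) _ _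
  · exact Continuous.intervalIntegrable (continuous_const.mul ((hcs _ σ).mul hxd)) _ _
  · exact Continuous.intervalIntegrable (continuous_const.mul ((hcs _ σ).mul hxd)) _ _

theorem dDk (h1 : K1) (hx : Continuous (xx φ)) (hxd : Continuous (xd φ)) (a : ℝ) (k : ℕ) :
    ∀ (m : ℤ) (t σ : ℝ), HasDerivAt (fun σ => ((DD a φ t)^[k] (QQ a φ σ t)) m)
      (((DD a φ t)^[k + 1] (QQ a φ σ t)) m) σ := by
  induction k with
  | zero => intro m t σ; exact dQ h1 hx hxd a m t σ
  | succ k ih =>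
    intro m t σ
    have i1 := (ih (m - 1) t σ).const_mul (xx φ t)
    have i2 := (ih (m + 1) t σ).const_mul ((a : ℂ) * conj (xx φ t))
    have i3 := (ih m t σ).const_mul (m : ℂ)
    have h := (i1.add i2).sub i3
    rw [Function.iterate_succ_apply' (DD a φ t) (k + 1)]
    have e : (fun σ => ((DD a φ t)^[k + 1] (QQ a φ σ t)) m) = fun σ =>
        xx φ t * ((DD a φ t)^[k] (QQ a φ σ t)) (m - 1) +
        (a : ℂ) * conj (xx φ t) * ((DD a φ t)^[k] (QQ a φ σ t)) (m + 1) -
        (m : ℂ) * ((DD a φ t)^[k] (QQ a φ σ t)) m := by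
      funext σ
      rw [Function.iterate_succ_apply']
      rfl
    rw [e]
    exact h

end

theorem t_G2 : G2 := by
  intro h1 a φ r hr hφ k m σ
  have hx := xx_cont' hr hφ
  have hxd := xd_cont' hr hφ
  have hX : Continuous fun s : ℝ => conj (xd φ s) := Complex.continuous_conj.comp hxd
  exact parR (F := fun σ t => ((DD a φ t)^[k] (QQ a φ σ t)) m * conj (xd φ t))
    (F' := fun σ t => ((DD a φ t)^[k + 1] (QQ a φ σ t)) m * conj (xd φ t)) 0 (2 * Real.pi)
    (fun σ => ((DD_cont h1 hx hxd a k m).comp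
      (by fun_prop : Continuous fun t : ℝ => ((σ, t) : ℝ × ℝ))).mul hX)
    ((DD_cont h1 hx hxd a (k + 1) m).mul (hX.comp continuous_snd))
    (fun σ t => (dDk h1 hx hxd a k m t σ).mul_const _) σ

end Pool.Agent.E8helper10.FV3
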